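import Mathlib

/-!
# Finite rings without a finite basis of quasi-identities

Terms and quasi-identities in the signature `{+, -, 0, *}` of (not necessarily associative) rings.
-/

set_option autoImplicit false

namespace Pool.Agent.N57.QB

/-- Terms in the ring signature `{+, -, 0, *}` with variables numbered by natural numbers. -/
inductive Tm : Type
  | var : ℕ → Tm
  | zero : Tm
  | neg : Tm → Tm
  | add : Tm → Tm → Tm
  | mul : Tm → Tm → Tm

/-- The value of a term under an assignment of the variables. -/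
def Tm.eval {A : Type} [NonUnitalNonAssocRing A] (e : ℕ → A) : Tm → A
  | .var i => e i
  | .zero => 0
  | .neg t => - t.eval e
  | .add s t => s.eval e + t.eval e
  | .mul s t => s.eval e * t.eval e

/-- A quasi-identity `s₁ = t₁ ∧ ... ∧ sₙ = tₙ → s = t`. -/
structure QuasiId : Type where
  /-- the premises -/
  prem : List (Tm × Tm)
  /-- the conclusion -/
  concl : Tm × Tm

/-- The quasi-identity holds in the ring `A`. -/
def QuasiId.Holds (q : QuasiId) (A : Type) [NonUnitalNonAssocRing A] : Prop :=
  ∀ e : ℕ → A, (∀ c ∈ q.prem, c.1.eval e = c.2.eval e) → q.concl.1.eval e = q.concl.2.eval e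

/-- All variables of the term are smaller than `n`. -/
def Tm.Small (n : ℕ) : Tm → Prop
  | .var i => i < n
  | .zero => True
  | .neg t => t.Small n
  | .add s t => s.Small n ∧ t.Small n
  | .mul s t => s.Small n ∧ t.Small n

theorem Tm.Small.mono {m n : ℕ} (h : m ≤ n) : ∀ {t : Tm}, t.Small m → t.Small n
  | .var _, h' => lt_of_lt_of_le h' h
  | .zero, _ => trivial
  | .neg t, h' => Tm.Small.mono (t := t) h h'
  | .add s t, h' => ⟨Tm.Small.mono (t := s) h h'.1, Tm.Small.mono (t := t) h h'.2⟩
  | .mul s t, h' => ⟨Tm.Small.mono (t := s) h h'.1, Tm.Small.mono (t := t) h h'.2⟩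

theorem Tm.exists_small : ∀ t : Tm, ∃ n, t.Small n
  | .var i => ⟨i + 1, Nat.lt_succ_self i⟩
  | .zero => ⟨0, trivial⟩
  | .neg t => Tm.exists_small t
  | .add s t => by
    obtain ⟨a, ha⟩ := Tm.exists_small s
    obtain ⟨b, hb⟩ := Tm.exists_small t
    exact ⟨max a b, ha.mono (le_max_left _ _), hb.mono (le_max_right _ _)⟩
  | .mul s t => by
    obtain ⟨a, ha⟩ := Tm.exists_small s
    obtain ⟨b, hb⟩ := Tm.exists_small t
    exact ⟨max a b, ha.mono (le_max_left _ _), hb.mono (le_max_right _ _)⟩

/-- All variables of the quasi-identity are smaller than `n`. -/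
def QuasiId.Small (n : ℕ) (q : QuasiId) : Prop :=
  (∀ c ∈ q.prem, c.1.Small n ∧ c.2.Small n) ∧ q.concl.1.Small n ∧ q.concl.2.Small n

theorem QuasiId.exists_small (q : QuasiId) : ∃ n, q.Small n := by
  obtain ⟨prem, concl⟩ := q
  obtain ⟨a, ha⟩ := concl.1.exists_small
  obtain ⟨b, hb⟩ := concl.2.exists_small
  have : ∃ n, ∀ c ∈ prem, c.1.Small n ∧ c.2.Small n := by
    induction prem with
    | nil => exact ⟨0, by simp⟩
    | cons c l ih =>
      obtain ⟨n, hn⟩ := ih
      obtain ⟨a, ha⟩ := c.1.exists_small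
      obtain ⟨b, hb⟩ := c.2.exists_small
      refine ⟨max n (max a b), ?_⟩
      intro d hd
      rcases List.mem_cons.1 hd with rfl | hd
      · exact ⟨ha.mono (by omega), hb.mono (by omega)⟩
      · exact ⟨(hn d hd).1.mono (by omega), (hn d hd).2.mono (by omega)⟩
  obtain ⟨n, hn⟩ := this
  refine ⟨max n (max a b), ?_, ha.mono (by omega), hb.mono (by omega)⟩
  intro d hd
  exact ⟨(hn d hd).1.mono (by omega), (hn d hd).2.mono (by omega)⟩

theorem exists_small_list (L : List QuasiId) : ∃ n, ∀ q ∈ L, q.Small n := by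
  induction L with
  | nil => exact ⟨0, by simp⟩
  | cons c l ih =>
    obtain ⟨n, hn⟩ := ih
    obtain ⟨a, ha⟩ := c.exists_small
    refine ⟨max n a, ?_⟩
    intro d hd
    have mono : ∀ (q : QuasiId) (i j : ℕ), i ≤ j → q.Small i → q.Small j := by
      intro q i j hij hq
      exact ⟨fun c hc => ⟨(hq.1 c hc).1.mono hij, (hq.1 c hc).2.mono hij⟩,
        hq.2.1.mono hij, hq.2.2.mono hij⟩
    rcases List.mem_cons.1 hd with rfl | hd
    · exact mono _ _ _ (by omega) ha
    · exact mono _ _ _ (by omega) (hn d hd)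

theorem Tm.eval_congr {A : Type} [NonUnitalNonAssocRing A] {e e' : ℕ → A} {n : ℕ}
    (h : ∀ i < n, e i = e' i) : ∀ {t : Tm}, t.Small n → t.eval e = t.eval e'
  | .var i, h' => h i h'
  | .zero, _ => rfl
  | .neg t, h' => by simp only [Tm.eval]; rw [Tm.eval_congr h (t := t) h']
  | .add s t, h' => by
    simp only [Tm.eval]; rw [Tm.eval_congr h (t := s) h'.1, Tm.eval_congr h (t := t) h'.2]
  | .mul s t, h' => by
    simp only [Tm.eval]; rw [Tm.eval_congr h (t := s) h'.1, Tm.eval_congr h (t := t) h'.2]

/-- Evaluation along a map which is a homomorphism on a subring `S`. -/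
theorem Tm.eval_map {A B : Type} [NonUnitalNonAssocRing A] [NonUnitalNonAssocRing B]
    (S : NonUnitalSubring A) (φ : A →+ B) (hφ : ∀ x ∈ S, ∀ y ∈ S, φ (x * y) = φ x * φ y)
    (e : ℕ → A) (he : ∀ i, e i ∈ S) :
    ∀ t : Tm, t.eval e ∈ S ∧ φ (t.eval e) = t.eval (fun i => φ (e i))
  | .var i => ⟨he i, rfl⟩
  | .zero => ⟨S.zero_mem, map_zero φ⟩
  | .neg t => by
    have h := Tm.eval_map S φ hφ e he t
    exact ⟨S.neg_mem h.1, by simp only [Tm.eval]; rw [map_neg, h.2]⟩
  | .add s t => by
    have h := Tm.eval_map S φ hφ e he t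
    have h' := Tm.eval_map S φ hφ e he s
    exact ⟨S.add_mem h'.1 h.1, by simp only [Tm.eval]; rw [map_add, h.2, h'.2]⟩
  | .mul s t => by
    have h := Tm.eval_map S φ hφ e he t
    have h' := Tm.eval_map S φ hφ e he s
    exact ⟨S.mul_mem h'.1 h.1, by simp only [Tm.eval]; rw [hφ _ h'.1 _ h.1, h.2, h'.2]⟩

/-- The ring `A` has a finite basis of quasi-identities: finitely many quasi-identities that hold
in `A` imply, in all rings, every quasi-identity that holds in `A`. -/
def HasFiniteBasis (A : Type) [NonUnitalNonAssocRing A] : Prop :=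
  ∃ L : List QuasiId, (∀ q ∈ L, q.Holds A) ∧
    ∀ q : QuasiId, q.Holds A →
      ∀ (B : Type) [NonUnitalNonAssocRing B], (∀ r ∈ L, r.Holds B) → q.Holds B

/-! ### The ring `x 𝔽_p[x] / (x³)` -/

/-- The elements `a x + b x²` of `x 𝔽_p[x] / (x³)`. -/
@[ext] structure NR (p : ℕ) : Type where
  /-- the coefficient of `x` -/
  a : ZMod p
  /-- the coefficient of `x²` -/
  b : ZMod p

namespace NR

variable {p : ℕ}

/-- identification with pairs, used for the additive structure -/
def eqv (p : ℕ) : NR p ≃ ZMod p × ZMod p where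
  toFun x := (x.a, x.b)
  invFun x := ⟨x.1, x.2⟩
  left_inv _ := rfl
  right_inv _ := rfl

instance : AddCommGroup (NR p) := (eqv p).addCommGroup

@[simp] theorem add_a (x y : NR p) : (x + y).a = x.a + y.a := rfl
@[simp] theorem add_b (x y : NR p) : (x + y).b = x.b + y.b := rfl
@[simp] theorem zero_a : (0 : NR p).a = 0 := rfl
@[simp] theorem zero_b : (0 : NR p).b = 0 := rfl
@[simp] theorem neg_a (x : NR p) : (-x).a = -x.a := rfl
@[simp] theorem neg_b (x : NR p) : (-x).b = -x.b := rfl

/-- `(a x + b x²) (c x + d x²) = a c x²` -/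
instance : Mul (NR p) := ⟨fun x y => ⟨0, x.a * y.a⟩⟩

@[simp] theorem mul_a (x y : NR p) : (x * y).a = 0 := rfl
@[simp] theorem mul_b (x y : NR p) : (x * y).b = x.a * y.a := rfl

instance : NonUnitalNonAssocRing (NR p) :=
  { (inferInstance : AddCommGroup (NR p)) with
    mul := (· * ·)
    left_distrib := fun x y z => by ext <;> simp [mul_add]
    right_distrib := fun x y z => by ext <;> simp [add_mul]
    zero_mul := fun x => by ext <;> simp
    mul_zero := fun x => by ext <;> simp }

instance [NeZero p] : Finite (NR p) := Finite.of_equiv _ (eqv p).symm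

end NR

/-! ### Rings of class two -/

/-- The ring `V × W` with the product `(v, w) (v', w') = (0, β v v')`. -/
@[ext] structure Two {V W : Type} [AddCommGroup V] [AddCommGroup W] (β : V →+ V →+ W) : Type where
  /-- first component -/
  v : V
  /-- second component -/
  w : W

namespace Two

variable {V W : Type} [AddCommGroup V] [AddCommGroup W] {β : V →+ V →+ W}

/-- identification with pairs, used for the additive structure -/
def eqv (β : V →+ V →+ W) : Two β ≃ V × W where
  toFun x := (x.v, x.w)
  invFun x := ⟨x.1, x.2⟩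
  left_inv _ := rfl
  right_inv _ := rfl

instance : AddCommGroup (Two β) := (eqv β).addCommGroup

@[simp] theorem add_v (x y : Two β) : (x + y).v = x.v + y.v := rfl
@[simp] theorem add_w (x y : Two β) : (x + y).w = x.w + y.w := rfl
@[simp] theorem zero_v : (0 : Two β).v = 0 := rfl
@[simp] theorem zero_w : (0 : Two β).w = 0 := rfl
@[simp] theorem neg_v (x : Two β) : (-x).v = -x.v := rfl
@[simp] theorem neg_w (x : Two β) : (-x).w = -x.w := rfl

instance : Mul (Two β) := ⟨fun x y => ⟨0, β x.v y.v⟩⟩

@[simp] theorem mul_v (x y : Two β) : (x * y).v = 0 := rfl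
@[simp] theorem mul_w (x y : Two β) : (x * y).w = β x.v y.v := rfl

instance : NonUnitalNonAssocRing (Two β) :=
  { (inferInstance : AddCommGroup (Two β)) with
    mul := (· * ·)
    left_distrib := fun x y z => by ext <;> simp
    right_distrib := fun x y z => by ext <;> simp
    zero_mul := fun x => by ext <;> simp
    mul_zero := fun x => by ext <;> simp }

end Two

end Pool.Agent.N57.QB
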