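import Pool.Agent.N57.QB.Forms

set_option autoImplicit false

namespace Pool.Agent.N57.QB

open LinearMap

variable {p : ℕ} [Fact p.Prime] {m : ℕ}

/-- forms vanishing on `V'` -/
def Van (V' : Submodule (ZMod p) (Vs p m)) :
    Submodule (ZMod p) (LinearMap.BilinForm (ZMod p) (Vs p m)) where
  carrier := {B | ∀ x ∈ V', ∀ y ∈ V', B x y = 0}
  add_mem' := by
    intro B C h h' x hx y hy
    rw [LinearMap.add_apply, LinearMap.add_apply, h x hx y hy, h' x hx y hy, add_zero]
  zero_mem' := by intro x _ y _; simp
  smul_mem' := by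
    intro c B h x hx y hy
    simp only [LinearMap.smul_apply]; rw [h x hx y hy, smul_zero]

theorem decomp (V' : Submodule (ZMod p) (Vs p m))
    (hV : Module.finrank (ZMod p) V' < m) (G : Submodule (ZMod p) (US p m))
    (hG : ∀ C : US p m, ∀ α : Vs p m →ₗ[ZMod p] ZMod p,
      (∀ x ∈ V', ∀ y ∈ V', C.1 x y = α x * α y) → C ∈ G) : ∀ B : US p m, B ∈ G := by
  classical
  obtain ⟨Z, hZ1, hZ2, hZ3, hZ4⟩ := exists_Z V' hV
  let H : Submodule (ZMod p) (LinearMap.BilinForm (ZMod p) (Vs p m)) :=
    G.map (US p m).subtype ⊔ Van V'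
  -- allowed squares
  have ha : ∀ α : Vs p m →ₗ[ZMod p] ZMod p, (α ev = 0 ∨ ∀ i : Fin m, α (et i) = 0) →
      pr α α ∈ H := by
    intro α hα
    set c : ZMod p := -(α ev * α ew - ∑ i : Fin m, α (es i) * α (et i)) with hc
    have hCU : pr α α + c • Z ∈ US p m := by
      rw [mem_US]
      refine ⟨fun x y => ?_, fun i => ?_, ?_⟩
      · simp only [LinearMap.add_apply, LinearMap.smul_apply, pr_apply, hZ1 x y]; ring
      · simp only [LinearMap.add_apply, LinearMap.smul_apply, pr_apply, hZ2 i, smul_zero, add_zero]
        rcases hα with h | h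
        · rw [h, mul_zero]
        · rw [h i, zero_mul]
      · simp only [LinearMap.add_apply, LinearMap.smul_apply, pr_apply, smul_eq_mul,
          Finset.sum_add_distrib, ← Finset.mul_sum]
        have : Z ev ew = 1 + ∑ i : Fin m, Z (es i) (et i) := by
          rw [← hZ3]; ring
        rw [this, hc]
        ring
    have hCG : (⟨pr α α + c • Z, hCU⟩ : US p m) ∈ G := by
      apply hG _ α
      intro x hx y hy
      simp only [LinearMap.add_apply, LinearMap.smul_apply, pr_apply, hZ4 x hx y hy, smul_zero,
        add_zero]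
    have h1 : pr α α = (pr α α + c • Z) + (-(c • Z)) := by abel
    rw [h1]
    refine Submodule.add_mem_sup (Submodule.mem_map.2 ⟨_, hCG, rfl⟩) ?_
    intro x hx y hy
    simp only [LinearMap.neg_apply, LinearMap.smul_apply, hZ4 x hx y hy, smul_zero, neg_zero]
  -- polarised squares
  have hb : ∀ α β : Vs p m →ₗ[ZMod p] ZMod p,
      ((α ev = 0 ∧ β ev = 0) ∨ ∀ i : Fin m, α (et i) = 0 ∧ β (et i) = 0) →
      pr α β + pr β α ∈ H := by
    intro α β h
    have e : pr α β + pr β α =
        pr (α + β) (α + β) + ((-1 : ZMod p) • pr α α + (-1 : ZMod p) • pr β β) := by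
      refine LinearMap.ext₂ fun x y => ?_
      simp only [LinearMap.add_apply, LinearMap.smul_apply, pr_apply, smul_eq_mul]
      ring
    rw [e]
    refine H.add_mem (ha _ ?_) (H.add_mem (H.smul_mem _ (ha _ ?_)) (H.smul_mem _ (ha _ ?_)))
    · rcases h with ⟨h, h'⟩ | h
      · left; rw [LinearMap.add_apply, h, h', add_zero]
      · right; intro i; rw [LinearMap.add_apply, (h i).1, (h i).2, add_zero]
    · rcases h with ⟨h, h'⟩ | h
      · left; exact h
      · right; exact fun i => (h i).1
    · rcases h with ⟨h, h'⟩ | h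
      · left; exact h'
      · right; exact fun i => (h i).2
  -- symmetric forms with `v` in the radical
  have hc : ∀ B : LinearMap.BilinForm (ZMod p) (Vs p m), (∀ x y, B x y = B y x) →
      (∀ y, B ev y = 0) → B ∈ H := by
    intro B hB1 hB2
    let r : Ix m ≃ Fin (Fintype.card (Ix m)) := Fintype.equivFin (Ix m)
    let T : Ix m → Ix m → LinearMap.BilinForm (ZMod p) (Vs p m) := fun i j =>
      if r i < r j then
        B (Pi.single i 1) (Pi.single j 1) •
          (pr (LinearMap.proj i) (LinearMap.proj j) + pr (LinearMap.proj j) (LinearMap.proj i))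
      else if i = j then
        B (Pi.single i 1) (Pi.single j 1) • pr (LinearMap.proj i) (LinearMap.proj j)
      else 0
    have hTH : ∀ i j, T i j ∈ H := by
      intro i j
      have h0 : i = Sum.inr false ∨ j = Sum.inr false →
          B (Pi.single i 1) (Pi.single j 1) = 0 := by
        rintro (rfl | rfl)
        · exact hB2 _
        · rw [hB1]; exact hB2 _
      simp only [T]
      by_cases hij : i = Sum.inr false ∨ j = Sum.inr false
      · rw [h0 hij]; simp
      · push Not at hij
        have hi : (LinearMap.proj i : Vs p m →ₗ[ZMod p] ZMod p) ev = 0 := by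
          simp only [LinearMap.proj_apply, ev, Pi.single_apply]; rw [if_neg hij.1]
        have hj : (LinearMap.proj j : Vs p m →ₗ[ZMod p] ZMod p) ev = 0 := by
          simp only [LinearMap.proj_apply, ev, Pi.single_apply]; rw [if_neg hij.2]
        split_ifs with h1 h2
        · exact H.smul_mem _ (hb _ _ (Or.inl ⟨hi, hj⟩))
        · subst h2
          exact H.smul_mem _ (ha _ (Or.inl hi))
        · exact H.zero_mem
    have e : B = ∑ i : Ix m, ∑ j : Ix m, T i j := by
      refine LinearMap.ext₂ fun x y => ?_
      have hxy : ∀ x y : Vs p m, B x y = ∑ i : Ix m, ∑ j : Ix m,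
          B (Pi.single i 1) (Pi.single j 1) * (x i * y j) := by
        intro x y
        have hs : ∀ i : Ix m, (fun j : Ix m => if i = j then (1 : ZMod p) else 0) = Pi.single i 1 := by
          intro i; funext j; rw [Pi.single_apply]; simp [eq_comm]
        have h1 : B x y = ∑ i : Ix m, x i * B (Pi.single i 1) y := by
          have := LinearMap.pi_apply_eq_sum_univ (B y) x
          rw [hB1 x y, this]
          refine Finset.sum_congr rfl fun i _ => ?_
          rw [hs, hB1 y, smul_eq_mul]
        rw [h1]
        refine Finset.sum_congr rfl fun i _ => ?_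
        have h4 := LinearMap.pi_apply_eq_sum_univ (B (Pi.single i 1)) y
        rw [h4, Finset.mul_sum]
        refine Finset.sum_congr rfl fun j _ => ?_
        rw [hs, smul_eq_mul]; ring
      let g : Ix m → Ix m → ZMod p := fun i j => B (Pi.single i 1) (Pi.single j 1) * (x i * y j)
      have hT : ∀ i j, T i j x y = (if r i < r j then g i j else 0) +
          (if r i < r j then g j i else 0) + (if i = j then g i j else 0) := by
        intro i j
        simp only [T, g]
        split_ifs with h1 h2 h2
        · subst h2; exact absurd h1 (lt_irrefl _)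
        · simp only [LinearMap.smul_apply, LinearMap.add_apply, pr_apply, LinearMap.proj_apply,
            smul_eq_mul]
          rw [hB1 (Pi.single j 1) (Pi.single i 1)]
          ring
        · simp only [LinearMap.smul_apply, pr_apply, LinearMap.proj_apply, smul_eq_mul]
          ring
        · simp
      simp only [LinearMap.sum_apply]
      rw [hxy x y]
      change ∑ i : Ix m, ∑ j : Ix m, g i j = _
      simp only [hT, Finset.sum_add_distrib]
      have h5 : (∑ i : Ix m, ∑ j : Ix m, if r i < r j then g j i else 0) =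
          ∑ i : Ix m, ∑ j : Ix m, if r j < r i then g i j else 0 := Finset.sum_comm
      rw [h5, ← Finset.sum_add_distrib, ← Finset.sum_add_distrib]
      refine Finset.sum_congr rfl fun i _ => ?_
      rw [← Finset.sum_add_distrib, ← Finset.sum_add_distrib]
      refine Finset.sum_congr rfl fun j _ => ?_
      rcases lt_trichotomy (r i) (r j) with h | h | h
      · have h6 : i ≠ j := fun h7 => by subst h7; exact lt_irrefl _ h
        simp [h, h6, not_lt.2 h.le]
      · have h6 : i = j := r.injective h
        simp [h, h6]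
      · have h6 : i ≠ j := fun h7 => by subst h7; exact lt_irrefl _ h
        simp [h, h6, not_lt.2 h.le]
    rw [e]
    exact H.sum_mem fun i _ => H.sum_mem fun j _ => hTH i j
  have hd : ∀ B ∈ US p m, B ∈ H := by
    intro B hB
    obtain ⟨hB1, hB2, -⟩ := mem_US.1 hB
    have hpi : ∀ κ : Vs p m →ₗ[ZMod p] ZMod p, κ ev = 1 →
        B.compl₁₂ (LinearMap.id - κ.smulRight ev) (LinearMap.id - κ.smulRight ev) ∈ H := by
      intro κ hκ
      apply hc
      · intro x y
        simp only [LinearMap.compl₁₂_apply]; rw [hB1]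
      · intro y
        simp only [LinearMap.compl₁₂_apply, LinearMap.sub_apply, LinearMap.id_apply,
          LinearMap.smulRight_apply, hκ, one_smul, sub_self, map_zero, LinearMap.zero_apply]
    by_cases hv : (ev : Vs p m) ∈ V'
    · let κ : Vs p m →ₗ[ZMod p] ZMod p := LinearMap.proj (Sum.inr false)
      have hκ : κ ev = 1 := by simp [κ, ev]
      have hκt : ∀ i : Fin m, κ (et i) = 0 := by intro i; simp [κ, et]
      let β : Vs p m →ₗ[ZMod p] ZMod p := B ev - (B ev ev) • κ
      have hβ : ∀ y, β y = B ev y - B ev ev * κ y := fun y => by simp [β]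
      have e : B = B.compl₁₂ (LinearMap.id - κ.smulRight ev) (LinearMap.id - κ.smulRight ev)
          + (pr κ β + pr β κ) + (B ev ev) • pr κ κ := by
        refine LinearMap.ext₂ fun x y => ?_
        simp only [LinearMap.add_apply, LinearMap.compl₁₂_apply, LinearMap.sub_apply,
          LinearMap.id_apply, LinearMap.smulRight_apply, pr_apply, hβ, LinearMap.smul_apply,
          smul_eq_mul, map_sub, map_smul]
        rw [hB1 x ev]
        ring
      rw [e]
      refine H.add_mem (H.add_mem (hpi κ hκ) (hb κ β (Or.inr fun i => ⟨hκt i, ?_⟩)))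
        (H.smul_mem _ (ha κ (Or.inr hκt)))
      rw [hβ, hκt i, mul_zero, sub_zero, hB1, hB2 i]
    · obtain ⟨κ₀, hκ1, hκ2⟩ := Submodule.exists_le_ker_of_notMem hv
      have hκ0 : κ₀ ev ≠ 0 := hκ1
      let κ : Vs p m →ₗ[ZMod p] ZMod p := (κ₀ ev)⁻¹ • κ₀
      have hκ : κ ev = 1 := by simp [κ, inv_mul_cancel₀ hκ0]
      have hκV : ∀ x ∈ V', κ x = 0 := by
        intro x hx
        have : κ₀ x = 0 := hκ2 hx
        simp [κ, this]
      have e : B = B.compl₁₂ (LinearMap.id - κ.smulRight ev) (LinearMap.id - κ.smulRight ev)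
          + (B - B.compl₁₂ (LinearMap.id - κ.smulRight ev)
            (LinearMap.id - κ.smulRight ev)) := by abel
      rw [e]
      refine H.add_mem (hpi κ hκ) (Submodule.mem_sup_right ?_)
      intro x hx y hy
      simp only [LinearMap.sub_apply, LinearMap.compl₁₂_apply, LinearMap.id_apply,
        LinearMap.smulRight_apply, hκV x hx, hκV y hy, zero_smul, sub_zero, sub_self]
  intro B
  obtain ⟨C, hC, D, hD, hCD⟩ := Submodule.mem_sup.1 (hd B.1 B.2)
  obtain ⟨C', hC', rfl⟩ := Submodule.mem_map.1 hC
  have hBC : B + (-1 : ZMod p) • C' ∈ G := by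
    apply hG _ 0
    intro x hx y hy
    have h5 : (B + (-1 : ZMod p) • C').1 x y = D x y := by
      have h6 : (B + (-1 : ZMod p) • C').1 x y = B.1 x y + (-1 : ZMod p) * C'.1 x y := rfl
      have h7 : B.1 x y = C'.1 x y + D x y := by rw [← hCD]; rfl
      rw [h6, h7]; ring
    rw [h5, hD x hx y hy]; simp
  have h8 := G.add_mem hBC hC'
  have h9 : B + (-1 : ZMod p) • C' + C' = B := by
    apply Subtype.ext
    refine LinearMap.ext₂ fun x y => ?_
    have h6 : (B + (-1 : ZMod p) • C' + C').1 x y
        = B.1 x y + (-1 : ZMod p) * C'.1 x y + C'.1 x y := rfl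
    rw [h6]; ring
  rwa [h9] at h8

end Pool.Agent.N57.QB
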