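import Pool.Agent.N57.QB.Core

set_option autoImplicit false

namespace Pool.Agent.N57.QB

open LinearMap

/-- index set: `s i = inl (inl i)`, `t i = inl (inr i)`, `v = inr false`, `w = inr true` -/
abbrev Ix (m : ℕ) : Type := (Fin m ⊕ Fin m) ⊕ Bool

/-- the space with basis `s i`, `t i`, `v`, `w` -/
abbrev Vs (p m : ℕ) : Type := Ix m → ZMod p

variable {p : ℕ} [Fact p.Prime] {m : ℕ}

/-- basis vectors -/
def es (i : Fin m) : Vs p m := Pi.single (Sum.inl (Sum.inl i)) 1
/-- basis vectors -/
def et (i : Fin m) : Vs p m := Pi.single (Sum.inl (Sum.inr i)) 1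
/-- basis vector -/
def ev : Vs p m := Pi.single (Sum.inr false) 1
/-- basis vector -/
def ew : Vs p m := Pi.single (Sum.inr true) 1

/-- The symmetric bilinear forms with `B (t i, v) = 0` and `B (v, w) = ∑ B (s i, t i)`. -/
def US (p : ℕ) [Fact p.Prime] (m : ℕ) : Submodule (ZMod p) (LinearMap.BilinForm (ZMod p) (Vs p m)) where
  carrier := {B | (∀ x y, B x y = B y x) ∧ (∀ i : Fin m, B (et i) ev = 0) ∧
    B ev ew = ∑ i : Fin m, B (es i) (et i)}
  add_mem' := by
    rintro B C ⟨h1, h2, h3⟩ ⟨h1', h2', h3'⟩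
    refine ⟨fun x y => ?_, fun i => ?_, ?_⟩
    · rw [LinearMap.add_apply, LinearMap.add_apply, LinearMap.add_apply, LinearMap.add_apply,
        h1, h1']
    · rw [LinearMap.add_apply, LinearMap.add_apply, h2, h2', add_zero]
    · simp only [LinearMap.add_apply, Finset.sum_add_distrib, h3, h3']
  zero_mem' := by
    refine ⟨fun x y => by simp, fun i => by simp, by simp⟩
  smul_mem' := by
    rintro c B ⟨h1, h2, h3⟩
    refine ⟨fun x y => ?_, fun i => ?_, ?_⟩
    · simp only [LinearMap.smul_apply]; rw [h1]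
    · simp only [LinearMap.smul_apply]; rw [h2, smul_zero]
    · simp only [LinearMap.smul_apply, h3, Finset.smul_sum]

theorem mem_US {B : LinearMap.BilinForm (ZMod p) (Vs p m)} :
    B ∈ US p m ↔ (∀ x y, B x y = B y x) ∧ (∀ i : Fin m, B (et i) ev = 0) ∧
      B ev ew = ∑ i : Fin m, B (es i) (et i) := Iff.rfl

/-- product of two linear forms -/
def pr (f g : Vs p m →ₗ[ZMod p] ZMod p) : LinearMap.BilinForm (ZMod p) (Vs p m) :=
  LinearMap.BilinForm.linMulLin f g

@[simp] theorem pr_apply (f g : Vs p m →ₗ[ZMod p] ZMod p) (x y : Vs p m) :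
    pr f g x y = f x * g y := LinearMap.BilinForm.linMulLin_apply x y

/-- A form which vanishes on a small subspace and has the prescribed inhomogeneous value. -/
theorem exists_Z (V' : Submodule (ZMod p) (Vs p m)) (hV : Module.finrank (ZMod p) V' < m) :
    ∃ Z : LinearMap.BilinForm (ZMod p) (Vs p m), (∀ x y, Z x y = Z y x) ∧
      (∀ i : Fin m, Z (et i) ev = 0) ∧ (Z ev ew - ∑ i : Fin m, Z (es i) (et i) = 1) ∧
      ∀ x ∈ V', ∀ y ∈ V', Z x y = 0 := by
  classical
  -- some `t j` is not in `V'`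
  have hj : ∃ j : Fin m, et (p := p) j ∉ V' := by
    by_contra hcon
    push Not at hcon
    have hli : LinearIndependent (ZMod p) (fun j : Fin m => (⟨et j, hcon j⟩ : V')) := by
      have h0 : LinearIndependent (ZMod p) (fun j : Fin m => (et j : Vs p m)) := by
        have h1 := (Pi.basisFun (ZMod p) (Ix m)).linearIndependent
        have h2 := h1.comp (fun j : Fin m => (Sum.inl (Sum.inr j) : Ix m))
          (fun a b hab => Sum.inr_injective (Sum.inl_injective hab))
        have h3 : (⇑(Pi.basisFun (ZMod p) (Ix m)) ∘ fun j : Fin m => (Sum.inl (Sum.inr j) : Ix m))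
            = (fun j : Fin m => (et j : Vs p m)) := by
          funext j
          simp [et, Pi.basisFun_apply]
        rwa [h3] at h2
      exact LinearIndependent.of_comp V'.subtype h0
    have := hli.fintype_card_le_finrank
    rw [Fintype.card_fin] at this
    omega
  obtain ⟨j, hj⟩ := hj
  obtain ⟨γ, hγ1, hγ2⟩ := Submodule.exists_le_ker_of_notMem hj
  have hγ0 : γ (et j) ≠ 0 := hγ1
  let δ : Vs p m →ₗ[ZMod p] ZMod p :=
    (-(γ (et j))⁻¹) • LinearMap.proj (Sum.inl (Sum.inl j) : Ix m)
  have δ_apply : ∀ x, δ x = (-(γ (et j))⁻¹) * x (Sum.inl (Sum.inl j)) := fun x => by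
    simp [δ]
  refine ⟨pr γ δ + pr δ γ, ?_, ?_, ?_, ?_⟩
  · intro x y
    simp only [LinearMap.add_apply, pr_apply]; ring
  · intro i
    simp only [LinearMap.add_apply, pr_apply, δ_apply]
    simp [et, ev]
  · simp only [LinearMap.add_apply, pr_apply, δ_apply]
    have e1 : (ev : Vs p m) (Sum.inl (Sum.inl j)) = 0 := by simp [ev]
    have e2 : (ew : Vs p m) (Sum.inl (Sum.inl j)) = 0 := by simp [ew]
    have e3 : ∀ i : Fin m, (et i : Vs p m) (Sum.inl (Sum.inl j)) = 0 := fun i => by simp [et]
    have e4 : ∀ i : Fin m, (es i : Vs p m) (Sum.inl (Sum.inl j)) = if j = i then 1 else 0 := by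
      intro i
      simp [es, Pi.single_apply]
    rw [e1, e2]
    simp only [e3, e4, mul_zero, zero_mul, zero_add, mul_ite, mul_one, ite_mul]
    rw [Finset.sum_ite_eq]
    simp only [Finset.mem_univ, if_true]
    field_simp
    ring
  · intro x hx y hy
    have h1 : γ x = 0 := hγ2 hx
    have h2 : γ y = 0 := hγ2 hy
    simp [h1, h2]

end Pool.Agent.N57.QB
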