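import Pool.Agent.N57.QB.Decomp

set_option autoImplicit false

namespace Pool.Agent.N57.QB

open LinearMap

variable {p : ℕ} [Fact p.Prime] {m : ℕ}

/-- evaluation pairing -/
def bt (p : ℕ) [Fact p.Prime] (m : ℕ) : Vs p m →+ Vs p m →+ Module.Dual (ZMod p) (US p m) :=
  AddMonoidHom.mk' (fun x => AddMonoidHom.mk' (fun y =>
    { toFun := fun B => B.1 x y
      map_add' := fun B C => rfl
      map_smul' := fun c B => rfl })
    (fun y z => by
      refine LinearMap.ext fun B => ?_
      change B.1 x (y + z) = B.1 x y + B.1 x z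
      rw [map_add]))
    (fun x y => by
      refine AddMonoidHom.ext fun z => ?_
      refine LinearMap.ext fun B => ?_
      change B.1 (x + y) z = B.1 x z + B.1 y z
      rw [map_add]; rfl)

theorem bt_apply (x y : Vs p m) (B : US p m) : bt p m x y B = B.1 x y := rfl

/-- the ring `K` -/
abbrev KR (p : ℕ) [Fact p.Prime] (m : ℕ) : Type := Two (bt p m)

/-- the map `(x, f) ↦ (0, α x)` -/
def psi (α : Vs p m →ₗ[ZMod p] ZMod p) : KR p m →+ NR p where
  toFun x := ⟨0, α x.v⟩
  map_zero' := by ext <;> simp
  map_add' x y := by ext <;> simp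

/-- the map `(x, f) ↦ (α x, f C)` -/
def phi (α : Vs p m →ₗ[ZMod p] ZMod p) (C : US p m) : KR p m →+ NR p where
  toFun x := ⟨α x.v, x.w C⟩
  map_zero' := by ext <;> simp
  map_add' x y := by ext <;> simp

/-- subring of the elements with first component in `V'` -/
def Sb (V' : Submodule (ZMod p) (Vs p m)) : NonUnitalSubring (KR p m) where
  carrier := {x | x.v ∈ V'}
  add_mem' := fun hx hy => V'.add_mem hx hy
  zero_mem' := V'.zero_mem
  neg_mem' := fun hx => V'.neg_mem hx
  mul_mem' := fun _ _ => V'.zero_mem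

theorem holds_KR {n : ℕ} (hn : n < m) (q : QuasiId) (hq : q.Small n)
    (h : q.Holds (NR p)) : q.Holds (KR p m) := by
  intro e hprem
  classical
  let e' : ℕ → KR p m := fun i => if i < n then e i else 0
  have hee : ∀ i < n, e i = e' i := fun i hi => by simp [e', hi]
  have hprem' : ∀ c ∈ q.prem, c.1.eval e' = c.2.eval e' := by
    intro c hc
    rw [← Tm.eval_congr hee (hq.1 c hc).1, ← Tm.eval_congr hee (hq.1 c hc).2]
    exact hprem c hc
  rw [Tm.eval_congr hee hq.2.1, Tm.eval_congr hee hq.2.2]
  let V' : Submodule (ZMod p) (Vs p m) :=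
    Submodule.span (ZMod p) (Set.range fun i : Fin n => (e i).v)
  have hV : Module.finrank (ZMod p) V' < m := by
    have h1 : Module.finrank (ZMod p) V' ≤ Fintype.card (Fin n) :=
      finrank_range_le_card (R := ZMod p) (fun i : Fin n => (e i).v)
    rw [Fintype.card_fin] at h1
    omega
  have heV : ∀ i, e' i ∈ Sb V' := by
    intro i
    change (e' i).v ∈ V'
    by_cases hi : i < n
    · have : e' i = e i := by simp [e', hi]
      rw [this]
      exact Submodule.subset_span ⟨⟨i, hi⟩, rfl⟩
    · have : e' i = 0 := by simp [e', hi]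
      rw [this]; exact V'.zero_mem
  ext1
  · -- first components
    have key : ∀ α : Vs p m →ₗ[ZMod p] ZMod p,
        α ((q.concl.1.eval e').v) = α ((q.concl.2.eval e').v) := by
      intro α
      have hψ : ∀ x ∈ (⊤ : NonUnitalSubring (KR p m)), ∀ y ∈ (⊤ : NonUnitalSubring (KR p m)),
          psi α (x * y) = psi α x * psi α y := by
        intro x _ y _
        ext <;> simp [psi]
      have ev := fun t => (Tm.eval_map ⊤ (psi α) hψ e' (fun _ => NonUnitalSubring.mem_top _) t).2
      have := h (fun i => psi α (e' i)) (fun c hc => by rw [← ev, ← ev, hprem' c hc])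
      rw [← ev, ← ev] at this
      exact congrArg NR.b this
    funext i
    exact key (LinearMap.proj i)
  · -- second components
    refine LinearMap.ext fun B => ?_
    have hG : ∀ B : US p m, B ∈ LinearMap.eqLocus (q.concl.1.eval e').w (q.concl.2.eval e').w := by
      apply decomp V' hV
      intro C α hC
      have hφ : ∀ x ∈ Sb V', ∀ y ∈ Sb V', phi α C (x * y) = phi α C x * phi α C y := by
        intro x hx y hy
        ext
        · simp [phi]
        · change (bt p m x.v y.v) C = α x.v * α y.v
          rw [bt_apply, hC _ hx _ hy]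
      have ev := fun t => (Tm.eval_map (Sb V') (phi α C) hφ e' heV t).2
      have := h (fun i => phi α C (e' i)) (fun c hc => by rw [← ev, ← ev, hprem' c hc])
      rw [← ev, ← ev] at this
      exact congrArg NR.b this
    exact hG B

/-! ### The quasi-identities -/

/-- sum of the terms `f 0, ..., f (k - 1)` -/
def sumT : ℕ → (ℕ → Tm) → Tm
  | 0, _ => .zero
  | k + 1, f => .add (sumT k f) (f k)

/-- the term `k t` -/
def nsm : ℕ → Tm → Tm
  | 0, _ => .zero
  | k + 1, t => .add (nsm k t) t

theorem eval_sumT {A : Type} [NonUnitalNonAssocRing A] (e : ℕ → A) (f : ℕ → Tm) :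
    ∀ k, (sumT k f).eval e = ∑ i ∈ Finset.range k, (f i).eval e
  | 0 => rfl
  | k + 1 => by
    rw [Finset.sum_range_succ, ← eval_sumT e f k]; rfl

theorem eval_nsm {A : Type} [NonUnitalNonAssocRing A] (e : ℕ → A) (t : Tm) :
    ∀ k, (nsm k t).eval e = k • t.eval e
  | 0 => by rw [zero_smul]; rfl
  | k + 1 => by
    rw [succ_nsmul, ← eval_nsm e t k]; rfl

/-- `t i v = 0`, `p x = 0`, `v w = ∑ s i t i` imply `v w = 0` -/
def qid (p m : ℕ) : QuasiId where
  prem := (List.range m).map (fun i => (Tm.mul (.var (m + i)) (.var (2 * m)), Tm.zero)) ++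
    ((List.range (2 * m + 2)).map (fun i => (nsm p (.var i), Tm.zero)) ++
    [(Tm.mul (.var (2 * m)) (.var (2 * m + 1)),
      sumT m (fun i => .mul (.var i) (.var (m + i))))])
  concl := (Tm.mul (.var (2 * m)) (.var (2 * m + 1)), Tm.zero)

theorem qid_holds_iff {A : Type} [NonUnitalNonAssocRing A] (m : ℕ) :
    (qid p m).Holds A ↔ ∀ e : ℕ → A, (∀ i < m, e (m + i) * e (2 * m) = 0) →
      (∀ i < 2 * m + 2, p • e i = 0) →
      e (2 * m) * e (2 * m + 1) = ∑ i ∈ Finset.range m, e i * e (m + i) →
      e (2 * m) * e (2 * m + 1) = 0 := by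
  constructor
  · intro h e h1 h2 h3
    apply h e
    intro c hc
    rcases List.mem_append.1 hc with hc | hc
    · obtain ⟨i, hi, rfl⟩ := List.mem_map.1 hc
      exact h1 i (List.mem_range.1 hi)
    · rcases List.mem_append.1 hc with hc | hc
      · obtain ⟨i, hi, rfl⟩ := List.mem_map.1 hc
        change (nsm p (.var i)).eval e = 0
        rw [eval_nsm]
        exact h2 i (List.mem_range.1 hi)
      · rw [List.mem_singleton.1 hc]
        change e (2 * m) * e (2 * m + 1) = _
        rw [eval_sumT]
        exact h3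
  · intro h e hprem
    apply h e
    · intro i hi
      exact hprem (Tm.mul (.var (m + i)) (.var (2 * m)), Tm.zero)
        (List.mem_append_left _ (List.mem_map.2 ⟨i, List.mem_range.2 hi, rfl⟩))
    · intro i hi
      have := hprem (nsm p (.var i), Tm.zero)
        (List.mem_append_right _ (List.mem_append_left _
          (List.mem_map.2 ⟨i, List.mem_range.2 hi, rfl⟩)))
      change (nsm p (.var i)).eval e = 0 at this
      rwa [eval_nsm] at this
    · have := hprem (Tm.mul (.var (2 * m)) (.var (2 * m + 1)),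
        sumT m (fun i => .mul (.var i) (.var (m + i))))
        (List.mem_append_right _ (List.mem_append_right _ (List.mem_singleton.2 rfl)))
      change e (2 * m) * e (2 * m + 1) = (sumT m _).eval e at this
      rw [eval_sumT] at this
      exact this

theorem qid_NR (B : Type) [NonUnitalNonAssocRing B] [Finite B] (hB : (Nat.card B).Coprime p) :
    (qid p m).Holds (NR p × B) := by
  rw [qid_holds_iff]
  intro e h1 h2 h3
  have hB0 : ∀ b : B, p • b = 0 → b = 0 := by
    intro b hb
    have h4 : addOrderOf b ∣ p := addOrderOf_dvd_of_nsmul_eq_zero hb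
    have h5 : addOrderOf b ∣ Nat.card B := addOrderOf_dvd_natCard b
    have h6 : addOrderOf b = 1 := Nat.eq_one_of_dvd_coprimes hB h5 h4
    exact AddMonoid.addOrderOf_eq_one_iff.1 h6
  have hv : (e (2 * m)).2 = 0 := hB0 _ (congrArg Prod.snd (h2 (2 * m) (by omega)))
  refine Prod.ext ?_ ?_
  · change (e (2 * m)).1 * (e (2 * m + 1)).1 = 0
    by_cases h0 : (e (2 * m)).1.a = 0
    · ext <;> simp [h0]
    · have ht : ∀ i < m, (e (m + i)).1.a = 0 := by
        intro i hi
        have h4 : (e (m + i)).1.a * (e (2 * m)).1.a = 0 :=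
          congrArg (fun x => (Prod.fst x).b) (h1 i hi)
        rcases mul_eq_zero.1 h4 with h5 | h5
        · exact h5
        · exact absurd h5 h0
      have h4 := congrArg Prod.fst h3
      rw [Prod.fst_sum] at h4
      change (e (2 * m)).1 * (e (2 * m + 1)).1 = _ at h4
      rw [h4]
      apply Finset.sum_eq_zero
      intro i hi
      have h5 := ht i (Finset.mem_range.1 hi)
      change (e i).1 * (e (m + i)).1 = 0
      ext <;> simp [h5]
  · change (e (2 * m)).2 * (e (2 * m + 1)).2 = 0
    rw [hv, zero_mul]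

/-- The assignment that violates the quasi-identity. -/
def bad (p : ℕ) [Fact p.Prime] (m : ℕ) : ℕ → KR p m := fun i =>
  if h : i < m then ⟨es ⟨i, h⟩, 0⟩
  else if h : i - m < m then ⟨et ⟨i - m, h⟩, 0⟩
  else if i = 2 * m then ⟨ev, 0⟩
  else if i = 2 * m + 1 then ⟨ew, 0⟩ else 0

theorem bad_s (i : ℕ) (h : i < m) : bad p m i = ⟨es ⟨i, h⟩, 0⟩ := by simp [bad, h]

theorem bad_t (i : ℕ) (h : i < m) : bad p m (m + i) = ⟨et ⟨i, h⟩, 0⟩ := by
  have h1 : ¬ (m + i < m) := by omega
  have h2 : m + i - m < m := by omega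
  simp only [bad, h1, dite_false, h2, dite_true]
  congr 2
  congr 1
  omega

theorem bad_v : bad p m (2 * m) = ⟨ev, 0⟩ := by
  by_cases hm : m = 0
  · subst hm; simp [bad]
  · have h1 : ¬ (2 * m < m) := by omega
    have h2 : ¬ (2 * m - m < m) := by omega
    simp [bad, h1, h2]

theorem bad_w : bad p m (2 * m + 1) = ⟨ew, 0⟩ := by
  have h1 : ¬ (2 * m + 1 < m) := by omega
  have h2 : ¬ (2 * m + 1 - m < m) := by omega
  simp [bad, h1, h2]

theorem qid_not_KR (hm : 0 < m) : ¬ (qid p m).Holds (KR p m) := by
  rw [qid_holds_iff]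
  intro h
  have h0 := h (bad p m) ?_ ?_ ?_
  · -- contradiction
    rw [bad_v, bad_w] at h0
    have h1 := congrArg Two.w h0
    let sv : Vs p m →ₗ[ZMod p] ZMod p := LinearMap.proj (Sum.inr false)
    let sw : Vs p m →ₗ[ZMod p] ZMod p := LinearMap.proj (Sum.inr true)
    let ss : Vs p m →ₗ[ZMod p] ZMod p := LinearMap.proj (Sum.inl (Sum.inl ⟨0, hm⟩))
    let st : Vs p m →ₗ[ZMod p] ZMod p := LinearMap.proj (Sum.inl (Sum.inr ⟨0, hm⟩))
    have hB : pr sv sw + pr sw sv + (pr ss st + pr st ss) ∈ US p m := by
      rw [mem_US]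
      refine ⟨fun x y => ?_, fun i => ?_, ?_⟩
      · simp only [LinearMap.add_apply, pr_apply]; ring
      · simp [sv, sw, ss, st, et, ev]
      · simp only [LinearMap.add_apply, pr_apply]
        have e1 : ∀ i : Fin m, sv (es i) = 0 := fun i => by simp [sv, es]
        have e2 : ∀ i : Fin m, sw (es i) = 0 := fun i => by simp [sw, es]
        have e3 : ∀ i : Fin m, st (es i) = 0 := fun i => by simp [st, es]
        have e4 : ∀ i : Fin m, ss (es i) * st (et i) = if i = ⟨0, hm⟩ then 1 else 0 := by
          intro i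
          by_cases hi : i = ⟨0, hm⟩
          · subst hi; simp [ss, st, es, et]
          · simp [ss, st, es, et, Pi.single_apply, hi, Ne.symm hi]
        simp only [e1, e2, e3, e4, zero_mul, zero_add, add_zero]
        rw [Finset.sum_ite_eq' Finset.univ]
        simp [sv, sw, ss, st, ev, ew]
    have h2 := congrArg (fun f : Module.Dual (ZMod p) (US p m) => f ⟨_, hB⟩) h1
    change (pr sv sw + pr sw sv + (pr ss st + pr st ss)) ev ew = (0 : ZMod p) at h2
    simp [sv, sw, ss, st, ev, ew] at h2
  · intro i hi
    rw [bad_t i hi, bad_v]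
    ext1
    · rfl
    · refine LinearMap.ext fun B => ?_
      exact (mem_US.1 B.2).2.1 ⟨i, hi⟩
  · intro i _
    ext1
    · have h1 : (p • bad p m i).v = p • (bad p m i).v := by
        have : ∀ k : ℕ, (k • bad p m i).v = k • (bad p m i).v := by
          intro k
          induction k with
          | zero => simp
          | succ k ih => rw [succ_nsmul, succ_nsmul, Two.add_v, ih]
        exact this p
      rw [h1]
      funext j
      simp
    · have h1 : (p • bad p m i).w = p • (bad p m i).w := by
        have : ∀ k : ℕ, (k • bad p m i).w = k • (bad p m i).w := by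
          intro k
          induction k with
          | zero => simp
          | succ k ih => rw [succ_nsmul, succ_nsmul, Two.add_w, ih]
        exact this p
      rw [h1]
      refine LinearMap.ext fun B => ?_
      simp
  · rw [bad_v, bad_w]
    have hs : ∀ (k : ℕ), k ≤ m → (∑ i ∈ Finset.range k, bad p m i * bad p m (m + i)).v = 0 ∧
        ∀ B : US p m, (∑ i ∈ Finset.range k, bad p m i * bad p m (m + i)).w B
          = ∑ i ∈ Finset.range k, if h : i < m then B.1 (es ⟨i, h⟩) (et ⟨i, h⟩) else 0 := by
      intro k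
      induction k with
      | zero => intro _; exact ⟨rfl, fun B => by simp⟩
      | succ k ih =>
        intro hk
        obtain ⟨i1, i2⟩ := ih (by omega)
        have hk' : k < m := by omega
        refine ⟨?_, fun B => ?_⟩
        · rw [Finset.sum_range_succ, Two.add_v, i1, Two.mul_v, add_zero]
        · rw [Finset.sum_range_succ, Finset.sum_range_succ, Two.add_w, LinearMap.add_apply, i2 B,
            Two.mul_w, bad_s k hk', bad_t k hk', dif_pos hk']
          rfl
    obtain ⟨h1, h2⟩ := hs m le_rfl
    ext1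
    · rw [h1]; rfl
    · refine LinearMap.ext fun B => ?_
      rw [h2 B, Finset.sum_range]
      have h3 := (mem_US.1 B.2).2.2
      change B.1 ev ew = _
      rw [h3]
      refine Finset.sum_congr rfl fun i _ => ?_
      rw [dif_pos i.2]

theorem holds_of_prod {A B : Type} [NonUnitalNonAssocRing A] [NonUnitalNonAssocRing B]
    (q : QuasiId) (h : q.Holds (A × B)) : q.Holds A := by
  intro e hprem
  have hφ : ∀ x ∈ (⊤ : NonUnitalSubring A), ∀ y ∈ (⊤ : NonUnitalSubring A),
      AddMonoidHom.inl A B (x * y) = AddMonoidHom.inl A B x * AddMonoidHom.inl A B y := by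
    intro x _ y _
    refine Prod.ext rfl ?_
    simp
  have ev := fun t =>
    (Tm.eval_map ⊤ (AddMonoidHom.inl A B) hφ e (fun _ => NonUnitalSubring.mem_top _) t).2
  have := h (fun i => AddMonoidHom.inl A B (e i)) (fun c hc => by rw [← ev, ← ev, hprem c hc])
  rw [← ev, ← ev] at this
  exact congrArg Prod.fst this

/-- The product of the ring `x 𝔽_p[x] / (x³)` with a finite ring of order prime to `p`
has no finite basis of quasi-identities. -/
theorem main (B : Type) [NonUnitalNonAssocRing B] [Finite B]
    (hB : (Nat.card B).Coprime p) : ¬ HasFiniteBasis (NR p × B) := by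
  rintro ⟨L, hL, h⟩
  obtain ⟨n, hn⟩ := exists_small_list L
  have h1 : (qid p (n + 1)).Holds (KR p (n + 1)) := by
    apply h _ (qid_NR B hB)
    intro r hr
    exact holds_KR (Nat.lt_succ_self n) r (hn r hr) (holds_of_prod r (hL r hr))
  exact qid_not_KR (Nat.succ_pos n) h1

end Pool.Agent.N57.QB
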